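import Pool.Agent.helper4.NF.SpecA

/-!
# Project nf (MP_4467b5_nt): module JSP
-/

set_option autoImplicit false

open Complex MeasureTheory

namespace Pool.Agent.NF

open Pool.Agent.helper84.DM Pool.Agent.helper78.ED Pool.Agent.DH Pool.Agent.ZD

/-- the estimate of the double sum -/
lemma JSP_sum (W : Finset ℝ) (f : ℝ → ℂ) (G H : ℝ → ℝ → ℂ) (DI K S : ℝ) (hDI : 0 ≤ DI)
    (hK : 0 ≤ K) (hKR : K * (W.card : ℝ) ≤ 1)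
    (hH : ∀ t₁ ∈ W, ∀ t₂ ∈ W, ‖H t₁ t₂‖ ≤ DI)
    (hG1 : ∀ t ∈ W, ‖G t t‖ ≤ S) (hS : 0 ≤ S)
    (hG2 : ∀ t₁ ∈ W, ∀ t₂ ∈ W, t₁ ≠ t₂ → ‖G t₁ t₂‖ ≤ K) :
    ‖∑ t₁ ∈ W, ∑ t₂ ∈ W, f t₁ * (starRingEnd ℂ) (f t₂) * G t₁ t₂ * H t₁ t₂‖
      ≤ (S + 1) * DI * ∑ t ∈ W, ‖f t‖ ^ 2 := by
  classical
  have hterm : ∀ t₁ ∈ W, ∀ t₂ ∈ W,
      ‖f t₁ * (starRingEnd ℂ) (f t₂) * G t₁ t₂ * H t₁ t₂‖ ≤
        (if t₁ = t₂ then ‖f t₂‖ ^ 2 * (S * DI) else 0) +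
          (‖f t₁‖ ^ 2 + ‖f t₂‖ ^ 2) / 2 * (K * DI) := by
    intro t₁ h₁ t₂ h₂
    have e1 : ‖f t₁ * (starRingEnd ℂ) (f t₂) * G t₁ t₂ * H t₁ t₂‖ =
        ‖f t₁‖ * ‖f t₂‖ * ‖G t₁ t₂‖ * ‖H t₁ t₂‖ := by
      rw [norm_mul, norm_mul, norm_mul, RCLike.norm_conj]
    rw [e1]
    have hH' := hH t₁ h₁ t₂ h₂
    have hn1 := norm_nonneg (f t₁)
    have hn2 := norm_nonneg (f t₂)
    have hamgm : ‖f t₁‖ * ‖f t₂‖ ≤ (‖f t₁‖ ^ 2 + ‖f t₂‖ ^ 2) / 2 := by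
      nlinarith [sq_nonneg (‖f t₁‖ - ‖f t₂‖)]
    by_cases h : t₁ = t₂
    · subst h
      rw [if_pos rfl]
      have hG := hG1 t₁ h₁
      have h3 : ‖f t₁‖ * ‖f t₁‖ * ‖G t₁ t₁‖ * ‖H t₁ t₁‖ ≤ ‖f t₁‖ * ‖f t₁‖ * S * DI := by
        gcongr
      have h4 : 0 ≤ (‖f t₁‖ ^ 2 + ‖f t₁‖ ^ 2) / 2 * (K * DI) := by positivity
      nlinarith
    · rw [if_neg h, zero_add]
      have hG := hG2 t₁ h₁ t₂ h₂ h
      calc ‖f t₁‖ * ‖f t₂‖ * ‖G t₁ t₂‖ * ‖H t₁ t₂‖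
          ≤ ‖f t₁‖ * ‖f t₂‖ * K * DI := by gcongr
        _ = ‖f t₁‖ * ‖f t₂‖ * (K * DI) := by ring
        _ ≤ (‖f t₁‖ ^ 2 + ‖f t₂‖ ^ 2) / 2 * (K * DI) := by gcongr
  set F : ℝ := ∑ t ∈ W, ‖f t‖ ^ 2 with hF
  have hF0 : 0 ≤ F := Finset.sum_nonneg fun _ _ => by positivity
  have h1 : ‖∑ t₁ ∈ W, ∑ t₂ ∈ W, f t₁ * (starRingEnd ℂ) (f t₂) * G t₁ t₂ * H t₁ t₂‖ ≤
      ∑ t₁ ∈ W, ∑ t₂ ∈ W, ((if t₁ = t₂ then ‖f t₂‖ ^ 2 * (S * DI) else 0) +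
          (‖f t₁‖ ^ 2 + ‖f t₂‖ ^ 2) / 2 * (K * DI)) := by
    refine (norm_sum_le _ _).trans (Finset.sum_le_sum fun t₁ h₁ => ?_)
    exact (norm_sum_le _ _).trans (Finset.sum_le_sum fun t₂ h₂ => hterm t₁ h₁ t₂ h₂)
  have h2 : ∑ t₁ ∈ W, ∑ t₂ ∈ W, ((if t₁ = t₂ then ‖f t₂‖ ^ 2 * (S * DI) else 0) +
          (‖f t₁‖ ^ 2 + ‖f t₂‖ ^ 2) / 2 * (K * DI)) =
      F * (S * DI) + (W.card : ℝ) * F * (K * DI) := by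
    simp_rw [Finset.sum_add_distrib]
    congr 1
    · rw [hF, Finset.sum_mul]
      refine Finset.sum_congr rfl fun t₁ h₁ => ?_
      rw [Finset.sum_ite_eq]
      rw [if_pos h₁]
    · simp_rw [← Finset.sum_mul]
      congr 1
      simp_rw [add_div, Finset.sum_add_distrib]
      simp only [Finset.sum_const, nsmul_eq_mul, ← Finset.sum_div]
      rw [← Finset.mul_sum, ← Finset.sum_div, ← hF]
      ring
  rw [h2] at h1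
  have h3 : (W.card : ℝ) * F * (K * DI) = (K * W.card) * (F * DI) := by ring
  have h4 : (K * W.card) * (F * DI) ≤ 1 * (F * DI) :=
    mul_le_mul_of_nonneg_right hKR (mul_nonneg hF0 hDI)
  rw [h3] at h1
  nlinarith

theorem JSP (hJEX : JEX_stmt) (hIWC : IWC_stmt) (hPRX : PRX_stmt) (hBSX : BSX_stmt)
    (hEXA : EXA_stmt) (hCRD : CRD_stmt) : JSP_stmt := by
  intro δ hδ hδ1
  obtain ⟨C₁, T₁, hC₁, hP⟩ := hPRX 3 δ (by norm_num) hδ hδ1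
  obtain ⟨C₂, hC₂, hB⟩ := hBSX 3 (by norm_num)
  obtain ⟨hexn, hexm, hexc, hex0, -, -, -, hBX0, hmu⟩ := hEXA
  refine ⟨max (max 1 T₁) (max (2 * C₁) C₂), ?_⟩
  intro T hT W hSep g hg X M X₀ M₀ A b f DI hX0 hX0' hM0 hDI hIW
  have hT1 : 1 ≤ T := (le_max_left _ _).trans ((le_max_left _ _).trans hT)
  have hTT1 : T₁ ≤ T := (le_max_right _ _).trans ((le_max_left _ _).trans hT)
  have hTC1 : 2 * C₁ ≤ T := (le_max_left _ _).trans ((le_max_right _ _).trans hT)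
  have hTC2 : C₂ ≤ T := (le_max_right _ _).trans ((le_max_right _ _).trans hT)
  have hT0 : 0 < T := by linarith
  obtain ⟨hSW, hSd⟩ := hSep
  have hTδ : 1 ≤ T ^ δ := Real.one_le_rpow hT1 hδ.le
  have hX01 : 1 ≤ X₀ := (Real.one_le_rpow hT1 (by norm_num)).trans hX0
  have hcard : (W.card : ℝ) ≤ T + 1 :=
    hCRD T W hT1 hSW fun t ht t' ht' hne => hTδ.trans (hSd t ht t' ht' hne)
  have hT3 : T ^ (-(3 : ℝ)) = 1 / T ^ 3 := by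
    rw [Real.rpow_neg hT0.le, one_div]
    norm_cast
  have hT3le : 1 / T ^ 3 ≤ 1 / T := by
    apply one_div_le_one_div_of_le hT0
    nlinarith [sq_nonneg T, pow_pos hT0 2, mul_self_nonneg (T - 1), mul_pos hT0 hT0]
  set K : ℝ := C₁ * T ^ (-(3 : ℝ)) with hK
  have hK0 : 0 ≤ K := by rw [hK]; positivity
  have hKR : K * (W.card : ℝ) ≤ 1 := by
    have h1 : K * (W.card : ℝ) ≤ K * (T + 1) := mul_le_mul_of_nonneg_left hcard hK0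
    have h2 : K * (T + 1) ≤ K * (2 * T) := mul_le_mul_of_nonneg_left (by linarith) hK0
    have h3 : K * (2 * T) = 2 * C₁ / T ^ 2 := by
      rw [hK, hT3]; field_simp
    have h4 : 2 * C₁ / T ^ 2 ≤ 1 := by
      rw [div_le_one (by positivity)]
      nlinarith
    linarith
  have hIWd : ∀ t₁ ∈ W, ∀ t₂ ∈ W, ‖IW T g X M A b t₁ t₂‖ ≤ DI := by
    intro t₁ h₁ t₂ h₂
    have := hIWC g hg T X M A b hT0 t₁ t₂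
    have h3 := hIW t₁ h₁
    have h4 := hIW t₂ h₂
    linarith
  set L : ℝ := Real.log X₀ with hL
  have hdiag : ∀ t ∈ W, ‖BX X₀ (t - t) - ex (-((t - t) * L)) * Bs X₀ M₀ (t - t)‖ ≤
      64 * X₀ + 1 := by
    intro t _
    rw [sub_self, zero_mul, neg_zero, hex0, one_mul, hBX0]
    have h1 : ‖Bs X₀ M₀ 0‖ ≤ 1 := by
      refine (hB T X₀ hT1 hX0 M₀).trans ?_
      rw [hT3]
      calc C₂ * (1 / T ^ 3) ≤ C₂ * (1 / T) := mul_le_mul_of_nonneg_left hT3le hC₂.le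
        _ ≤ 1 := by rw [mul_one_div, div_le_one hT0]; exact hTC2
    have h2 : ‖((mu X₀ : ℝ) : ℂ)‖ ≤ 64 * X₀ := by
      rw [Complex.norm_real, Real.norm_of_nonneg (hmu X₀ hX01).1]
      exact (hmu X₀ hX01).2
    exact (norm_sub_le _ _).trans (by linarith)
  have hoff : ∀ t₁ ∈ W, ∀ t₂ ∈ W, t₁ ≠ t₂ →
      ‖BX X₀ (t₁ - t₂) - ex (-((t₁ - t₂) * L)) * Bs X₀ M₀ (t₁ - t₂)‖ ≤ K := by
    intro t₁ h₁ t₂ h₂ hne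
    refine hP T hTT1 X₀ hX01 hX0' (t₁ - t₂) (hSd t₁ h₁ t₂ h₂ hne) ?_ M₀ hM0
    have h3 := hSW t₁ h₁
    have h4 := hSW t₂ h₂
    rw [abs_le]
    constructor <;> linarith [h3.1, h3.2, h4.1, h4.2]
  have hmain := JSP_sum W f
    (fun t₁ t₂ => BX X₀ (t₁ - t₂) - ex (-((t₁ - t₂) * L)) * Bs X₀ M₀ (t₁ - t₂))
    (fun t₁ t₂ => IW T g X M A b t₁ t₂) DI K (64 * X₀ + 1) hDI hK0 hKR hIWd hdiag
    (by linarith) hoff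
  have hJ := hJEX g hg T W f X M X₀ A b hT0
  have hexp : ∀ t₁ t₂ : ℝ, (f t₁ * ex (-(t₁ * L))) * (starRingEnd ℂ) (f t₂ * ex (-(t₂ * L))) =
      f t₁ * (starRingEnd ℂ) (f t₂) * ex (-((t₁ - t₂) * L)) := by
    intro t₁ t₂
    rw [map_mul, hexc, neg_neg]
    have h1 : -((t₁ - t₂) * L) = -(t₁ * L) + t₂ * L := by ring
    rw [h1, hexm]
    ring
  have hdiff : ((Jg T g W f X M X₀ A b : ℝ) : ℂ) -
      ∑ t₁ ∈ W, ∑ t₂ ∈ W, (f t₁ * ex (-(t₁ * L))) * (starRingEnd ℂ) (f t₂ * ex (-(t₂ * L))) *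
        Bs X₀ M₀ (t₁ - t₂) * IW T g X M A b t₁ t₂ =
      ∑ t₁ ∈ W, ∑ t₂ ∈ W, f t₁ * (starRingEnd ℂ) (f t₂) *
        (BX X₀ (t₁ - t₂) - ex (-((t₁ - t₂) * L)) * Bs X₀ M₀ (t₁ - t₂)) *
          IW T g X M A b t₁ t₂ := by
    rw [hJ, ← Finset.sum_sub_distrib]
    refine Finset.sum_congr rfl fun t₁ _ => ?_
    rw [← Finset.sum_sub_distrib]
    refine Finset.sum_congr rfl fun t₂ _ => ?_
    rw [hexp]
    ring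
  have hnorm : Jg T g W f X M X₀ A b ≤ ‖((Jg T g W f X M X₀ A b : ℝ) : ℂ)‖ := by
    rw [Complex.norm_real]
    exact le_abs_self _
  have htri : ‖((Jg T g W f X M X₀ A b : ℝ) : ℂ)‖ ≤
      ‖∑ t₁ ∈ W, ∑ t₂ ∈ W, (f t₁ * ex (-(t₁ * L))) *
        (starRingEnd ℂ) (f t₂ * ex (-(t₂ * L))) * Bs X₀ M₀ (t₁ - t₂) * IW T g X M A b t₁ t₂‖ +
      ‖∑ t₁ ∈ W, ∑ t₂ ∈ W, f t₁ * (starRingEnd ℂ) (f t₂) *
        (BX X₀ (t₁ - t₂) - ex (-((t₁ - t₂) * L)) * Bs X₀ M₀ (t₁ - t₂)) *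
          IW T g X M A b t₁ t₂‖ := by
    rw [← hdiff]
    have := norm_add_le
      (∑ t₁ ∈ W, ∑ t₂ ∈ W, (f t₁ * ex (-(t₁ * L))) *
        (starRingEnd ℂ) (f t₂ * ex (-(t₂ * L))) * Bs X₀ M₀ (t₁ - t₂) * IW T g X M A b t₁ t₂)
      (((Jg T g W f X M X₀ A b : ℝ) : ℂ) -
      ∑ t₁ ∈ W, ∑ t₂ ∈ W, (f t₁ * ex (-(t₁ * L))) * (starRingEnd ℂ) (f t₂ * ex (-(t₂ * L))) *
        Bs X₀ M₀ (t₁ - t₂) * IW T g X M A b t₁ t₂)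
    rwa [add_sub_cancel] at this
  have hfin : (64 * X₀ + 1 + 1) * DI * ∑ t ∈ W, ‖f t‖ ^ 2 =
      (64 * X₀ + 2) * DI * ∑ t ∈ W, ‖f t‖ ^ 2 := by ring
  rw [hfin] at hmain
  linarith [hnorm, htri, hmain]

end Pool.Agent.NF
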